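import Pool.Agent.V11304.SC.One

/-!
# MP_ee25d9_nt, Q1: `S(p,r) ≡ 0 (mod p^4)` for primes `p ≡ 3 (mod 4)`, `p > 3`

`a k = ∑_{j ≤ k} C(2j,j)^3 C(2k-2j,k-j)^3` and `S p r = ∑_{k < p^r} a k / 64^k`.
-/

namespace Pool.Agent.Results.MP_ee25d9_nt.Full

open Finset

/-- the self-convolution of the sequence `C(2k,k)^3` -/
def a (k : ℕ) : ℕ := ∑ j ∈ range (k+1), (Nat.choose (2*j) j)^3 * (Nat.choose (2*k-2*j) (k-j))^3

/-- `S(p,r) = ∑_{k=0}^{p^r-1} a_k / 64^k` -/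
def S (p r : ℕ) : ℚ := ∑ k ∈ range (p^r), (a k : ℚ) / 64^k

lemma a_div (k : ℕ) : (a k : ℚ) / 64^k
    = ∑ j ∈ range (k+1), V11304.SC.c j * V11304.SC.c (k-j) := by
  unfold a
  push_cast
  rw [sum_div]
  apply sum_congr rfl
  intro j hj
  have hj : j ≤ k := by have := mem_range.1 hj; omega
  unfold V11304.SC.c
  have e1 : ((Nat.choose (2*j) j : ℕ) : ℚ) = (Nat.centralBinom j : ℚ) := rfl
  have e2 : ((Nat.choose (2*k-2*j) (k-j) : ℕ) : ℚ) = (Nat.centralBinom (k-j) : ℚ) := by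
    rw [show 2*k-2*j = 2*(k-j) by omega]; rfl
  have e3 : (64:ℚ)^k = 64^j * 64^(k-j) := by
    rw [← pow_add]; congr 1; omega
  rw [e1, e2, e3, div_mul_div_comm]

/-- For every prime `p > 3` with `p ≡ 3 (mod 4)` and every `r ≥ 1`, `p^4` divides the numerator
(in lowest terms) of `S(p,r)`. -/
theorem result (p : ℕ) (hp : p.Prime) (h4 : p % 4 = 3) (h3 : 3 < p) (r : ℕ) (hr : 1 ≤ r) :
    ((p:ℤ)^4) ∣ (S p r).num := by
  haveI : Fact p.Prime := ⟨hp⟩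
  apply V11304.SC.J_num
  have e : S p r = V11304.SC.Ssum (p^r) := by
    unfold S V11304.SC.Ssum
    rw [← V11304.SC.triangle (p^r) (fun i j => V11304.SC.c i * V11304.SC.c j)]
    exact sum_congr rfl (fun k _ => a_div k)
  rw [e]
  exact V11304.SC.Ssum_all h4 h3 hr

end Pool.Agent.Results.MP_ee25d9_nt.Full
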